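import Pool.Agent.H10.LE.Dat
import Pool.Agent.H6.LE.OddQ
import Pool.Agent.H6.LE.Picard

set_option autoImplicit false

/-! Data and nonlinearity of the clamped problem (helper10). -/

namespace LE.X
open LE Set Filter Topology MeasureTheory

/-- `V`-data -/
noncomputable def fq (q : ℝ → ℝ) (x : ℝ) : ℝ := fold x * q (md x)

/-- `V`-nonlinearity -/
noncomputable def Nc (k x v : ℝ) : ℝ := md x * cl k (v / md x) ^ 9

section data
variable {q : ℝ → ℝ} {L : ℝ} (h1 : q 1 = 0) (hL : 0 ≤ L)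
  (hq : ∀ x ∈ Icc (0 : ℝ) 1, ∀ y ∈ Icc (0 : ℝ) 1, |q x - q y| ≤ L * |x - y|)

include h1 hL hq

theorem q_le {x : ℝ} (hx : x ∈ Icc (0 : ℝ) 1) : |q x| ≤ L := by
  have h := hq x hx 1 (by norm_num)
  rw [h1, sub_zero, abs_sub_comm x 1, abs_of_nonneg (show (0 : ℝ) ≤ 1 - x by linarith [hx.2])] at h
  nlinarith [hx.1, hx.2]

theorem phi_lip {x y : ℝ} (hx : x ∈ Icc (-1 : ℝ) 1) (hy : y ∈ Icc (-1 : ℝ) 1) :
    |x * q (|x|) - y * q (|y|)| ≤ 2 * L * |x - y| := by
  have hx' : |x| ∈ Icc (0 : ℝ) 1 := ⟨abs_nonneg _, abs_le.2 hx⟩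
  have hy' : |y| ∈ Icc (0 : ℝ) 1 := ⟨abs_nonneg _, abs_le.2 hy⟩
  have e : x * q (|x|) - y * q (|y|) = (x - y) * q (|x|) + y * (q (|x|) - q (|y|)) := by ring
  have h2 := hq _ hx' _ hy'
  have h3 := abs_abs_sub_abs_le_abs_sub x y
  have h4 := q_le h1 hL hq hx'
  rw [e]
  calc |(x - y) * q (|x|) + y * (q (|x|) - q (|y|))| ≤ |x - y| * |q (|x|)| + |y| * |q (|x|) - q (|y|)| := by
        rw [← abs_mul, ← abs_mul]; exact abs_add_le _ _
    _ ≤ |x - y| * L + 1 * (L * |x - y|) := by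
        refine add_le_add (mul_le_mul_of_nonneg_left h4 (abs_nonneg _)) ?_
        refine mul_le_mul hy'.2 (h2.trans (mul_le_mul_of_nonneg_left h3 hL)) (abs_nonneg _)
          zero_le_one
    _ = _ := by ring

theorem fq_lip (x y : ℝ) : |fq q x - fq q y| ≤ 4 * L * |x - y| := by
  have h := fold_lip (φ := fun x => x * q (|x|)) (K := 2 * L)
    (fun x hx y hy => phi_lip h1 hL hq hx hy) (by simp [h1]) (fun x hx => by
      have hx' : |x| ∈ Icc (0 : ℝ) 1 := ⟨abs_nonneg _, abs_le.2 hx⟩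
      have h4 := q_le h1 hL hq hx'
      show |x * q (|x|)| ≤ 2 * L
      rw [abs_mul]
      have := mul_le_mul hx'.2 h4 (abs_nonneg _) zero_le_one
      linarith) x y
  have e : 2 * (2 * L) = 4 * L := by ring
  rw [e] at h
  exact h

theorem fq_cont : Continuous (fq q) := by
  refine LipschitzWith.continuous (K := ⟨4 * L, by positivity⟩)
    (LipschitzWith.of_dist_le_mul fun x y => ?_)
  rw [Real.dist_eq, Real.dist_eq]
  exact fq_lip h1 hL hq x y

omit hL hq in
theorem fq_odd (x : ℝ) : fq q (-x) = -fq q x := by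
  unfold fq
  rw [md_neg]
  rcases fold_neg x with h | h
  · rw [h, h1]; ring
  · rw [h]; ring

omit hL hq in
theorem fq_self {x : ℝ} (hx : |x| ≤ 1) : fq q x = x * q (|x|) := by
  unfold fq
  rw [md_self hx]
  rcases fold_cases x (abs_le.1 hx) with h | ⟨h2, h3⟩ | ⟨h2, h3⟩
  · rw [h]
  · rw [h2]; simp [h1]
  · rw [h2]; simp [h1]

end data

theorem fq_per (q : ℝ → ℝ) (x : ℝ) : fq q (x + 2) = fq q x := by
  unfold fq; rw [fold_per, md_per]

theorem Nc_per (k x v : ℝ) : Nc k (x + 2) v = Nc k x v := by unfold Nc; rw [md_per]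

theorem Nc_odd {k : ℝ} (hk : 0 ≤ k) (x v : ℝ) : Nc k (-x) (-v) = -Nc k x v := by
  unfold Nc
  rw [md_neg, neg_div, cl_neg hk]
  ring

theorem Nc_lipv {k : ℝ} (hk : 0 ≤ k) (x v w : ℝ) : |Nc k x v - Nc k x w| ≤ 9 * k ^ 8 * |v - w| :=
  mg_lipv hk (md_nonneg x) v w

theorem Nc_lipx {k : ℝ} (hk : 0 ≤ k) (x y v : ℝ) :
    |Nc k x v - Nc k y v| ≤ 10 * k ^ 9 * |x - y| := by
  refine (mg_lip hk (md_nonneg x) (md_nonneg y) v).trans ?_
  exact mul_le_mul_of_nonneg_left (md_lip x y) (by positivity)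

theorem Nc_bd {k : ℝ} (hk : 0 ≤ k) (x v : ℝ) : |Nc k x v| ≤ k ^ 9 := by
  unfold Nc
  rw [abs_mul, abs_pow, abs_of_nonneg (md_nonneg x)]
  calc md x * |cl k (v / md x)| ^ 9 ≤ 1 * k ^ 9 :=
        mul_le_mul (md_le_one x) (pow_le_pow_left₀ (abs_nonneg _) (cl_abs hk _) 9)
          (by positivity) zero_le_one
    _ = _ := one_mul _

theorem Nc_lip {k : ℝ} (hk : 0 ≤ k) (x y v w : ℝ) :
    |Nc k x v - Nc k y w| ≤ 10 * k ^ 9 * |x - y| + 9 * k ^ 8 * |v - w| := by
  have e : Nc k x v - Nc k y w = (Nc k x v - Nc k y v) + (Nc k y v - Nc k y w) := by ring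
  rw [e]
  exact (abs_add_le _ _).trans (add_le_add (Nc_lipx hk x y v) (Nc_lipv hk y v w))

theorem Nc_cont {k : ℝ} (hk : 0 ≤ k) : Continuous fun z : ℝ × ℝ => Nc k z.1 z.2 := by
  refine LipschitzWith.continuous (K := ⟨10 * k ^ 9 + 9 * k ^ 8, by positivity⟩)
    (LipschitzWith.of_dist_le_mul fun x y => ?_)
  rw [Real.dist_eq, Prod.dist_eq, Real.dist_eq, Real.dist_eq]
  refine (Nc_lip hk _ _ _ _).trans ?_
  show _ ≤ (10 * k ^ 9 + 9 * k ^ 8) * _
  rw [add_mul]
  have h9 : 0 ≤ 10 * k ^ 9 := by positivity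
  have h8 : 0 ≤ 9 * k ^ 8 := by positivity
  exact add_le_add (mul_le_mul_of_nonneg_left (le_max_left _ _) h9)
    (mul_le_mul_of_nonneg_left (le_max_right _ _) h8)

theorem Nc_quot {k : ℝ} (hk : 0 ≤ k) {x : ℝ} (hx : |x| ≤ 1) (hx0 : x ≠ 0) (v : ℝ) :
    Nc k x v / x = cl k (v / x) ^ 9 := by
  unfold Nc
  rw [md_self hx]
  rcases lt_or_gt_of_ne hx0 with h | h
  · rw [abs_of_neg h, div_neg, cl_neg hk]
    field_simp
  · rw [abs_of_pos h]
    field_simp

/-! ### the limit of `S1` at `(0, 0)` -/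

noncomputable def m3 : ℝ := ∫ z : ℝ, |z| ^ 3 ∂gam
noncomputable def m2 : ℝ := ∫ z : ℝ, z ^ 2 ∂gam

theorem m3_int : Integrable (fun z : ℝ => |z| ^ 3) gam := gi (by fun_prop) 1 3 (fun z => by
  rw [one_mul, abs_pow, abs_abs]
  exact pow_le_pow_left₀ (abs_nonneg _) (by linarith) 3)

theorem m2_int : Integrable (fun z : ℝ => z ^ 2) gam := gi (by fun_prop) 1 2 (fun z => by
  rw [one_mul, abs_pow]
  exact pow_le_pow_left₀ (abs_nonneg _) (by linarith) 2)

theorem m2_eq : m2 = 1 := by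
  have h := int_w2
  rw [integral_sub m2_int (integrable_const _)] at h
  simp at h
  unfold m2
  linarith

theorem int_z : ∫ z : ℝ, z ∂gam = 0 := by
  have := stein (h := fun _ => 1) (h' := fun _ => 0) (fun z => hasDerivAt_const z 1)
    (integrable_const _) (by
      have : Integrable (fun z : ℝ => z) gam := gi continuous_id 1 1 (by simp)
      simpa using this) (integrable_const _)
  simpa using this.symm

theorem S1_lim {q : ℝ → ℝ} {L : ℝ} (h1 : q 1 = 0) (hL : 0 ≤ L)
    (hq : ∀ x ∈ Icc (0 : ℝ) 1, ∀ y ∈ Icc (0 : ℝ) 1, |q x - q y| ≤ L * |x - y|)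
    {ε : ℝ} (hε : 0 < ε) : ∃ δ > 0, ∀ t, 0 < t → t < δ → ∀ y, |y| < δ →
      |S1 (fq q) t y - q 0| ≤ ε := by
  set f := fq q with hf
  have hfc : Continuous f := fq_cont h1 hL hq
  obtain ⟨B, hB⟩ := per_bdd hfc (fq_per q)
  have hq0 : |q 0| ≤ L := q_le h1 hL hq (by norm_num)
  set r : ℝ → ℝ := fun w => f w - q 0 * w with hr
  have hrc : Continuous r := by fun_prop
  -- local and global Lipschitz bounds
  have hglob : ∀ w w', |r w - r w'| ≤ 5 * L * |w - w'| := by
    intro w w'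
    have e : r w - r w' = (f w - f w') - q 0 * (w - w') := by simp only [hr]; ring
    rw [e]
    calc |(f w - f w') - q 0 * (w - w')| ≤ |f w - f w'| + |q 0 * (w - w')| := abs_sub _ _
      _ ≤ 4 * L * |w - w'| + L * |w - w'| := by
          refine add_le_add (fq_lip h1 hL hq _ _) ?_
          rw [abs_mul]
          exact mul_le_mul_of_nonneg_right hq0 (abs_nonneg _)
      _ = _ := by ring
  have hloc : ∀ d, d ≤ 1 → ∀ w w', |w| ≤ d → |w'| ≤ d → |r w - r w'| ≤ 2 * L * d * |w - w'| := by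
    intro d hd w w' hw hw'
    have hw1 : |w| ∈ Icc (0 : ℝ) 1 := ⟨abs_nonneg _, hw.trans hd⟩
    have hw1' : |w'| ∈ Icc (0 : ℝ) 1 := ⟨abs_nonneg _, hw'.trans hd⟩
    have e : r w - r w' = (w - w') * (q (|w|) - q 0) + w' * (q (|w|) - q (|w'|)) := by
      simp only [hr, hf]
      rw [fq_self h1 (hw.trans hd), fq_self h1 (hw'.trans hd)]
      ring
    have k1 := hq _ hw1 0 (by norm_num)
    have k2 := hq _ hw1 _ hw1'
    rw [sub_zero, abs_abs] at k1
    have h3 := abs_abs_sub_abs_le_abs_sub w w'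
    have hd0 : 0 ≤ d := (abs_nonneg _).trans hw
    rw [e]
    calc |(w - w') * (q (|w|) - q 0) + w' * (q (|w|) - q (|w'|))|
        ≤ |w - w'| * |q (|w|) - q 0| + |w'| * |q (|w|) - q (|w'|)| := by
          rw [← abs_mul, ← abs_mul]; exact abs_add_le _ _
      _ ≤ |w - w'| * (L * d) + d * (L * |w - w'|) := by
          refine add_le_add (mul_le_mul_of_nonneg_left
            (k1.trans (mul_le_mul_of_nonneg_left hw hL)) (abs_nonneg _)) ?_
          exact mul_le_mul hw' (k2.trans (mul_le_mul_of_nonneg_left h3 hL)) (abs_nonneg _) hd0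
      _ = _ := by ring
  have hm3 : 0 ≤ m3 := integral_nonneg fun z => by positivity
  -- choice of the radius
  obtain ⟨d, hd0, hd1, hdε⟩ : ∃ d > 0, d ≤ 1 ∧ 2 * L * d ≤ ε / 2 := by
    refine ⟨min 1 (ε / (4 * (L + 1))), by positivity, min_le_left _ _, ?_⟩
    calc 2 * L * min 1 (ε / (4 * (L + 1))) ≤ 2 * L * (ε / (4 * (L + 1))) := by
          gcongr; exact min_le_right _ _
      _ = ε / 2 * (L / (L + 1)) := by field_simp; ring
      _ ≤ ε / 2 * 1 := by
          gcongr
          rw [div_le_one (by positivity)]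
          linarith
      _ = ε / 2 := mul_one _
  have hlim : Tendsto (fun t : ℝ => 10 * L * √(2 * t) / d * m3) (𝓝 0) (𝓝 0) := by
    have : Continuous fun t : ℝ => 10 * L * √(2 * t) / d * m3 := by fun_prop
    have h := this.tendsto 0
    simpa using h
  have hev : ∀ᶠ t : ℝ in 𝓝 0, 10 * L * √(2 * t) / d * m3 < ε / 2 :=
    hlim.eventually (gt_mem_nhds (by positivity))
  obtain ⟨δ, hδ, hball⟩ := Metric.eventually_nhds_iff.1 hev
  refine ⟨min δ (d / 2), by positivity, fun t ht htδ y hy => ?_⟩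
  have hσ : 10 * L * √(2 * t) / d * m3 < ε / 2 := hball (by
    rw [Real.dist_eq, sub_zero, abs_of_pos ht]
    exact htδ.trans_le (min_le_left _ _))
  set σ := √(2 * t) with hσdef
  have hσ0 : 0 < σ := Real.sqrt_pos.2 (by positivity)
  have hyd : |y| ≤ d / 2 := hy.le.trans (min_le_right _ _)
  -- the formula
  have if1 : Integrable (fun z => z * f (y + σ * z)) gam :=
    wf_int hfc hB (w := fun z => z) continuous_id 1 1 (by simp) σ y
  have iz : Integrable (fun z : ℝ => z) gam := gi continuous_id 1 1 (by simp)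
  have il : Integrable (fun z : ℝ => z * (y + σ * z)) gam := by
    refine ((iz.const_mul y).add (m2_int.const_mul σ)).congr (ae_of_all _ fun z => ?_)
    simp only [Pi.add_apply]
    ring
  have el : ∫ z : ℝ, z * (y + σ * z) ∂gam = σ := by
    have e : (fun z : ℝ => z * (y + σ * z)) = fun z => y * z + σ * z ^ 2 := by
      ext z; ring
    rw [e, integral_add (iz.const_mul y) (m2_int.const_mul σ), integral_const_mul,
      integral_const_mul, int_z]
    have := m2_eq
    unfold m2 at this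
    rw [this]
    ring
  have e1 : S1 f t y - q 0 = σ⁻¹ * ∫ z, z * (r (y + σ * z) - r y) ∂gam := by
    have e2 : (fun z => z * (r (y + σ * z) - r y)) =
        fun z => z * f (y + σ * z) - q 0 * (z * (y + σ * z)) - r y * z := by
      ext z; simp only [hr]; ring
    have i3 : Integrable (fun z => z * f (y + σ * z) - q 0 * (z * (y + σ * z))) gam :=
      if1.sub (il.const_mul _)
    rw [e2, integral_sub i3 (iz.const_mul _), integral_sub if1 (il.const_mul _), integral_const_mul, integral_const_mul, int_z, el,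
      S1_eq', ← hσdef]
    field_simp
    ring
  have hbound : ∀ z : ℝ, ‖z * (r (y + σ * z) - r y)‖ ≤
      σ * (2 * L * d) * z ^ 2 + σ * (10 * L * σ / d) * |z| ^ 3 := by
    intro z
    have e3 : y + σ * z - y = σ * z := by ring
    have hz2 : |z| * |z| = z ^ 2 := by rw [← abs_mul, ← pow_two, abs_of_nonneg (sq_nonneg z)]
    rw [Real.norm_eq_abs, abs_mul]
    rcases le_or_gt (σ * |z|) (d / 2) with h | h
    · have k := hloc d hd1 (y + σ * z) y (by
        refine (abs_add_le _ _).trans ?_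
        rw [abs_mul, abs_of_pos hσ0]
        linarith) (by linarith)
      rw [e3, abs_mul, abs_of_pos hσ0] at k
      have h0 : 0 ≤ σ * (10 * L * σ / d) * |z| ^ 3 := by positivity
      calc |z| * |r (y + σ * z) - r y| ≤ |z| * (2 * L * d * (σ * |z|)) :=
            mul_le_mul_of_nonneg_left k (abs_nonneg _)
        _ = σ * (2 * L * d) * z ^ 2 := by rw [← hz2]; ring
        _ ≤ _ := by linarith
    · have k := hglob (y + σ * z) y
      rw [e3, abs_mul, abs_of_pos hσ0] at k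
      have h0 : 0 ≤ σ * (2 * L * d) * z ^ 2 := by positivity
      have h2 : 1 ≤ 2 * (σ * |z|) / d := by
        rw [le_div_iff₀ hd0]; linarith
      have h3 : 0 ≤ |z| * (5 * L * (σ * |z|)) := by positivity
      calc |z| * |r (y + σ * z) - r y| ≤ |z| * (5 * L * (σ * |z|)) :=
            mul_le_mul_of_nonneg_left k (abs_nonneg _)
        _ ≤ |z| * (5 * L * (σ * |z|)) * (2 * (σ * |z|) / d) := le_mul_of_one_le_right h3 h2
        _ = σ * (10 * L * σ / d) * |z| ^ 3 := by ring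
        _ ≤ _ := by linarith
  have i4 : Integrable (fun z : ℝ => σ * (2 * L * d) * z ^ 2 +
      σ * (10 * L * σ / d) * |z| ^ 3) gam :=
    (m2_int.const_mul (σ * (2 * L * d))).add (m3_int.const_mul (σ * (10 * L * σ / d)))
  have hint := norm_integral_le_of_norm_le (μ := gam)
    (f := fun z => z * (r (y + σ * z) - r y)) i4 (ae_of_all _ hbound)
  have hsum : ∫ z : ℝ, (σ * (2 * L * d) * z ^ 2 + σ * (10 * L * σ / d) * |z| ^ 3) ∂gam =
      σ * (2 * L * d) + σ * (10 * L * σ / d) * m3 := by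
    have := integral_add (m2_int.const_mul (σ * (2 * L * d)))
      (m3_int.const_mul (σ * (10 * L * σ / d)))
    have h2 := m2_eq
    unfold m2 at h2
    rw [integral_const_mul, integral_const_mul, h2, mul_one] at this
    exact this
  rw [hsum, Real.norm_eq_abs] at hint
  rw [e1, abs_mul, abs_of_pos (inv_pos.2 hσ0)]
  calc σ⁻¹ * |∫ z, z * (r (y + σ * z) - r y) ∂gam|
      ≤ σ⁻¹ * (σ * (2 * L * d) + σ * (10 * L * σ / d) * m3) :=
        mul_le_mul_of_nonneg_left hint (inv_pos.2 hσ0).le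
    _ = 2 * L * d + 10 * L * σ / d * m3 := by field_simp
    _ ≤ ε := by linarith

end LE.X
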