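import Pool.Agent.H6.LE.Fold

set_option autoImplicit false

/-! Distance to the even integers, folded data, the clamped nonlinearity (helper10). -/

namespace LE.X
open LE Set Filter Topology MeasureTheory

/-- distance to `2ℤ` -/
noncomputable def md (x : ℝ) : ℝ := |fold x|

theorem md_nonneg (x : ℝ) : 0 ≤ md x := abs_nonneg _

theorem md_le_one (x : ℝ) : md x ≤ 1 := abs_le.2 ⟨(fold_mem x).1, (fold_mem x).2⟩

theorem md_le (x : ℝ) (z : ℤ) : md x ≤ |x - 2 * z| := by
  have h := round_le (x / 2) z
  have e1 : md x = 2 * |x / 2 - round (x / 2)| := by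
    unfold md fold
    rw [← abs_two, ← abs_mul, abs_two]
    congr 1
    ring
  have e2 : |x - 2 * (z : ℝ)| = 2 * |x / 2 - z| := by
    rw [← abs_two, ← abs_mul, abs_two]
    congr 1
    ring
  rw [e1, e2]
  linarith

theorem md_lip (x y : ℝ) : |md x - md y| ≤ |x - y| := by
  have key : ∀ x y : ℝ, md x - md y ≤ |x - y| := by
    intro x y
    have h1 := md_le x (round (y / 2))
    have h2 : |x - 2 * ((round (y / 2) : ℤ) : ℝ)| ≤ |x - y| + md y := by
      have e : x - 2 * ((round (y / 2) : ℤ) : ℝ) = (x - y) + fold y := by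
        unfold fold; ring
      rw [e]
      exact abs_add_le _ _
    linarith
  rw [abs_le]
  constructor
  · have := key y x
    rw [abs_sub_comm] at this
    linarith
  · exact key x y

theorem md_cont : Continuous md := by
  refine LipschitzWith.continuous (K := 1) (LipschitzWith.of_dist_le_mul fun x y => ?_)
  rw [Real.dist_eq, Real.dist_eq, NNReal.coe_one, one_mul]
  exact md_lip x y

theorem md_per (x : ℝ) : md (x + 2) = md x := by unfold md; rw [fold_per]

theorem md_neg (x : ℝ) : md (-x) = md x := by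
  have key : ∀ x : ℝ, md (-x) ≤ md x := by
    intro x
    have h := md_le (-x) (-round (x / 2))
    have e : |(-x) - 2 * ((-round (x / 2) : ℤ) : ℝ)| = md x := by
      unfold md fold
      rw [← abs_neg]
      congr 1
      push_cast
      ring
    rw [e] at h
    exact h
  refine le_antisymm (key x) ?_
  have := key (-x)
  rwa [neg_neg] at this

theorem md_self {x : ℝ} (hx : |x| ≤ 1) : md x = |x| := by
  rw [abs_le] at hx
  unfold md
  rcases fold_cases x hx with h | ⟨h1, h2⟩ | ⟨h1, h2⟩
  · rw [h]
  · rw [h2, h1]; simp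
  · rw [h2, h1]; simp

theorem fold_round (x : ℝ) : 2 * ((round (x / 2) : ℤ) : ℝ) - 1 ≤ x ∧
    x < 2 * ((round (x / 2) : ℤ) : ℝ) + 1 := by
  rw [round_eq]
  have h1 := Int.floor_le (x / 2 + 1 / 2)
  have h2 := Int.lt_floor_add_one (x / 2 + 1 / 2)
  constructor <;> linarith

theorem fold_neg (x : ℝ) : md x = 1 ∨ fold (-x) = -fold x := by
  obtain ⟨h1, h2⟩ := fold_round x
  set m := round (x / 2) with hm
  rcases h1.eq_or_lt with h | h
  · left
    unfold md
    have := fold_eq (x := x) m h1 h2
    rw [this, ← h]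
    have e : (2 * (m : ℝ) - 1) - 2 * m = -1 := by ring
    rw [e]
    simp
  · right
    rw [fold_eq (x := x) m h1 h2, fold_eq (x := -x) (-m) (by push_cast; linarith)
      (by push_cast; linarith)]
    push_cast
    ring

/-- composition with the folding map is Lipschitz -/
theorem fold_lip {φ : ℝ → ℝ} {K : ℝ}
    (hφ : ∀ x ∈ Icc (-1 : ℝ) 1, ∀ y ∈ Icc (-1 : ℝ) 1, |φ x - φ y| ≤ K * |x - y|)
    (h1 : φ 1 = φ (-1)) (hb : ∀ x ∈ Icc (-1 : ℝ) 1, |φ x| ≤ K) (x y : ℝ) :
    |φ (fold x) - φ (fold y)| ≤ 2 * K * |x - y| := by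
  have hK : 0 ≤ K := (abs_nonneg _).trans (hb 0 (by norm_num))
  -- wlog x ≤ y
  wlog hxy : x ≤ y generalizing x y
  · have := this y x (by linarith)
    rw [abs_sub_comm, abs_sub_comm x y]
    exact this
  rcases le_or_gt 1 (y - x) with h | h
  · have e1 := hb _ (fold_mem x)
    have e2 := hb _ (fold_mem y)
    have e3 : |φ (fold x) - φ (fold y)| ≤ 2 * K := by
      calc |φ (fold x) - φ (fold y)| ≤ |φ (fold x)| + |φ (fold y)| := abs_sub _ _
        _ ≤ 2 * K := by linarith
    have e4 : 1 ≤ |x - y| := by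
      rw [abs_sub_comm, abs_of_nonneg (by linarith)]
      exact h
    nlinarith
  · obtain ⟨g1, g2⟩ := fold_round x
    set m := round (x / 2) with hm
    have ex := fold_eq (x := x) m g1 g2
    have key : |φ (fold x) - φ (fold y)| ≤ K * |x - y| := by
      rcases lt_or_ge y (2 * (m : ℝ) + 1) with h3 | h3
      · have ey := fold_eq (x := y) m (by linarith) h3
        have := hφ _ (fold_mem x) _ (fold_mem y)
        rw [ex, ey] at this ⊢
        have e : x - 2 * (m : ℝ) - (y - 2 * m) = x - y := by ring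
        rw [e] at this
        exact this
      · have ey := fold_eq (x := y) (m + 1) (by push_cast; linarith) (by push_cast; linarith)
        have k1 := hφ _ (fold_mem x) 1 (by norm_num)
        have k2 := hφ (-1) (by norm_num) _ (fold_mem y)
        have e1 : |fold x - 1| = 2 * m + 1 - x := by
          rw [ex, abs_of_nonpos (by linarith)]
          ring
        have e2 : |(-1) - fold y| = y - 2 * m - 1 := by
          rw [ey]
          push_cast
          rw [abs_of_nonpos (by linarith)]
          ring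
        rw [e1] at k1
        rw [e2] at k2
        have e3 : |x - y| = y - x := by
          rw [abs_sub_comm, abs_of_nonneg (by linarith)]
        rw [e3]
        calc |φ (fold x) - φ (fold y)| = |(φ (fold x) - φ 1) + (φ (-1) - φ (fold y))| := by
              rw [h1]; congr 1; ring
          _ ≤ |φ (fold x) - φ 1| + |φ (-1) - φ (fold y)| := abs_add_le _ _
          _ ≤ K * (2 * m + 1 - x) + K * (y - 2 * m - 1) := add_le_add k1 k2
          _ = K * (y - x) := by ring
    refine key.trans ?_
    have := mul_nonneg hK (abs_nonneg (x - y))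
    nlinarith

/-! ### the clamp -/

noncomputable def cl (k u : ℝ) : ℝ := max (-k) (min u k)

theorem cl_abs {k : ℝ} (hk : 0 ≤ k) (u : ℝ) : |cl k u| ≤ k := by
  unfold cl
  rw [abs_le]
  exact ⟨le_max_left _ _, max_le (by linarith) (min_le_right _ _)⟩

theorem cl_lip (k u v : ℝ) : |cl k u - cl k v| ≤ |u - v| := by
  unfold cl
  have h1 : |max (-k) (min u k) - max (-k) (min v k)| ≤ |min u k - min v k| := by
    rw [max_comm (-k), max_comm (-k)]
    exact abs_max_sub_max_le_abs _ _ _
  refine h1.trans ?_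
  have h2 := abs_min_sub_min_le_max u k v k
  rwa [sub_self, abs_zero, max_eq_left (abs_nonneg _)] at h2

theorem cl_neg {k : ℝ} (hk : 0 ≤ k) (u : ℝ) : cl k (-u) = -cl k u := by
  unfold cl
  rcases le_total u (-k) with h | h
  · rw [min_eq_right (show k ≤ -u by linarith), max_eq_right (show -k ≤ k by linarith),
      min_eq_left (show u ≤ k by linarith), max_eq_left h, neg_neg]
  · rcases le_total u k with h' | h'
    · rw [min_eq_left (show -u ≤ k by linarith), max_eq_right (show -k ≤ -u by linarith),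
        min_eq_left h', max_eq_right h]
    · rw [min_eq_left (show -u ≤ k by linarith), max_eq_left (show -u ≤ -k by linarith),
        min_eq_right h', max_eq_right (show -k ≤ k by linarith)]

theorem cl_cont (k : ℝ) : Continuous (cl k) := by unfold cl; fun_prop

theorem cl_of_ge {k u : ℝ} (hk : 0 ≤ k) (h : k ≤ u) : cl k u = k := by
  unfold cl
  rw [min_eq_right h, max_eq_right (by linarith)]

theorem cl_of_le {k u : ℝ} (hk : 0 ≤ k) (h : u ≤ -k) : cl k u = -k := by
  unfold cl
  rw [min_eq_left (by linarith), max_eq_left h]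

theorem pow9_lip {k a b : ℝ} (ha : |a| ≤ k) (hb : |b| ≤ k) :
    |a ^ 9 - b ^ 9| ≤ 9 * k ^ 8 * |a - b| := by
  have h := Convex.norm_image_sub_le_of_norm_hasDerivWithin_le (f := fun x : ℝ => x ^ 9)
    (f' := fun x => 9 * x ^ 8) (s := Icc (-k) k) (C := 9 * k ^ 8)
    (fun x _ => by simpa using (hasDerivAt_pow 9 x).hasDerivWithinAt)
    (fun x hx => by
      rw [Real.norm_eq_abs, abs_mul, abs_pow, abs_of_nonneg (by norm_num : (0 : ℝ) ≤ 9)]
      have : |x| ≤ k := abs_le.2 hx
      gcongr) (convex_Icc _ _) (abs_le.1 hb) (abs_le.1 ha)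
  simpa [Real.norm_eq_abs] using h

/-- `m * gc (v / m)`, Lipschitz in `m` -/
theorem mg_lip {k : ℝ} (hk : 0 ≤ k) {m m' : ℝ} (hm : 0 ≤ m) (hm' : 0 ≤ m') (v : ℝ) :
    |m * cl k (v / m) ^ 9 - m' * cl k (v / m') ^ 9| ≤ 10 * k ^ 9 * |m - m'| := by
  have hb : ∀ u, |cl k u ^ 9| ≤ k ^ 9 := fun u => by
    rw [abs_pow]
    exact pow_le_pow_left₀ (abs_nonneg _) (cl_abs hk u) 9
  have hk9 : 0 ≤ k ^ 9 := by positivity
  wlog hmm : m ≤ m' generalizing m m'
  · have := this hm' hm (by linarith)
    rw [abs_sub_comm, abs_sub_comm m m']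
    exact this
  rcases hm.eq_or_lt with h0 | h0
  · rw [← h0, zero_mul, zero_sub, zero_sub, abs_neg, abs_neg, abs_mul]
    have := hb (v / m')
    calc |m'| * |cl k (v / m') ^ 9| ≤ |m'| * k ^ 9 :=
          mul_le_mul_of_nonneg_left this (abs_nonneg _)
      _ ≤ 10 * k ^ 9 * |m'| := by nlinarith [mul_nonneg hk9 (abs_nonneg m')]
  · have h0' : 0 < m' := lt_of_lt_of_le h0 hmm
    have e : m * cl k (v / m) ^ 9 - m' * cl k (v / m') ^ 9 =
        (m - m') * cl k (v / m') ^ 9 + m * (cl k (v / m) ^ 9 - cl k (v / m') ^ 9) := by ring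
    have h1 : m * |cl k (v / m) ^ 9 - cl k (v / m') ^ 9| ≤ 9 * k ^ 9 * |m - m'| := by
      rcases le_or_gt k |v / m'| with hc | hc
      · have e2 : cl k (v / m) = cl k (v / m') := by
          have hvm : |v / m'| ≤ |v / m| := by
            rw [abs_div, abs_div, abs_of_pos h0, abs_of_pos h0']
            exact div_le_div_of_nonneg_left (abs_nonneg _) h0 hmm
          rcases le_total 0 v with hv | hv
          · rw [abs_of_nonneg (div_nonneg hv h0'.le)] at hc hvm
            rw [abs_of_nonneg (div_nonneg hv h0.le)] at hvm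
            rw [cl_of_ge hk hc, cl_of_ge hk (hc.trans hvm)]
          · rw [abs_of_nonpos (div_nonpos_of_nonpos_of_nonneg hv h0'.le)] at hc hvm
            rw [abs_of_nonpos (div_nonpos_of_nonpos_of_nonneg hv h0.le)] at hvm
            rw [cl_of_le hk (by linarith), cl_of_le hk (by linarith)]
        rw [e2, sub_self, abs_zero, mul_zero]
        positivity
      · have h2 : |cl k (v / m) - cl k (v / m')| ≤ |v / m - v / m'| := cl_lip _ _ _
        have h3 : |v / m - v / m'| = |v / m'| * (|m - m'| / m) := by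
          have : v / m - v / m' = (v / m') * ((m' - m) / m) := by field_simp
          rw [this, abs_mul, abs_div (m' - m) m, abs_of_pos h0, abs_sub_comm m' m]
        have h4 := pow9_lip (cl_abs hk (v / m)) (cl_abs hk (v / m'))
        calc m * |cl k (v / m) ^ 9 - cl k (v / m') ^ 9|
            ≤ m * (9 * k ^ 8 * (k * (|m - m'| / m))) := by
              refine mul_le_mul_of_nonneg_left (h4.trans ?_) hm
              refine mul_le_mul_of_nonneg_left ?_ (by positivity)
              rw [h3] at h2
              exact h2.trans (mul_le_mul_of_nonneg_right hc.le (by positivity))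
          _ = 9 * k ^ 9 * |m - m'| := by field_simp
    rw [e]
    calc |(m - m') * cl k (v / m') ^ 9 + m * (cl k (v / m) ^ 9 - cl k (v / m') ^ 9)|
        ≤ |m - m'| * k ^ 9 + 9 * k ^ 9 * |m - m'| := by
          refine (abs_add_le _ _).trans (add_le_add ?_ ?_)
          · rw [abs_mul]
            exact mul_le_mul_of_nonneg_left (hb _) (abs_nonneg _)
          · rw [abs_mul, abs_of_nonneg hm]
            exact h1
      _ = _ := by ring

theorem mg_lipv {k : ℝ} (hk : 0 ≤ k) {m : ℝ} (hm : 0 ≤ m) (v w : ℝ) :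
    |m * cl k (v / m) ^ 9 - m * cl k (w / m) ^ 9| ≤ 9 * k ^ 8 * |v - w| := by
  rcases hm.eq_or_lt with h0 | h0
  · rw [← h0, zero_mul, zero_mul, sub_zero, abs_zero]
    positivity
  · have h4 := pow9_lip (cl_abs hk (v / m)) (cl_abs hk (w / m))
    have h2 : |cl k (v / m) - cl k (w / m)| ≤ |v / m - w / m| := cl_lip _ _ _
    have h3 : |v / m - w / m| = |v - w| / m := by
      rw [← sub_div, abs_div, abs_of_pos h0]
    rw [← mul_sub, abs_mul, abs_of_pos h0]
    calc m * |cl k (v / m) ^ 9 - cl k (w / m) ^ 9| ≤ m * (9 * k ^ 8 * (|v - w| / m)) := by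
          refine mul_le_mul_of_nonneg_left (h4.trans ?_) hm
          rw [h3] at h2
          exact mul_le_mul_of_nonneg_left h2 (by positivity)
      _ = _ := by field_simp

end LE.X
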