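import Mathlib

set_option autoImplicit false

/-! Derivative of `∫_0^τ H (τ - s) s ds` (helper10). -/

namespace LE.X
open Set Filter Topology MeasureTheory

theorem rpow_int (t : ℝ) : IntervalIntegrable (fun s : ℝ => (t - s) ^ (-(1 / 2) : ℝ)) volume 0 t := by
  have h : IntervalIntegrable (fun s : ℝ => s ^ (-(1 / 2) : ℝ)) volume 0 t :=
    intervalIntegral.intervalIntegrable_rpow' (by norm_num)
  have h2 := h.comp_sub_left t
  simpa using h2.symm

theorem duh {H K : ℝ → ℝ → ℝ} (hH : Continuous fun z : ℝ × ℝ => H z.1 z.2)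
    {t : ℝ} (ht : 0 < t)
    (hd : ∀ s ∈ Ioo 0 t, HasDerivAt (fun r => H r s) (K (t - s) s) (t - s)) {C : ℝ}
    (hL : ∀ s ∈ Ioo 0 t, ∀ r', |H r' s - H (t - s) s| ≤
      C * (t - s) ^ (-(1 / 2) : ℝ) * |r' - (t - s)|)
    (hK : AEStronglyMeasurable (fun s => K (t - s) s) (volume.restrict (Ioo 0 t))) :
    HasDerivAt (fun τ => ∫ s in (0 : ℝ)..τ, H (τ - s) s)
      (H 0 t + ∫ s in (0 : ℝ)..t, K (t - s) s) t := by
  have hc : ∀ τ : ℝ, Continuous fun s => H (τ - s) s := fun τ =>
    hH.comp (by fun_prop : Continuous fun s : ℝ => (τ - s, s))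
  have e : (fun τ => ∫ s in (0 : ℝ)..τ, H (τ - s) s) =
      fun τ => (∫ s in t..τ, H (τ - s) s) + ∫ s in (0 : ℝ)..t, H (τ - s) s := by
    ext τ
    rw [add_comm, intervalIntegral.integral_add_adjacent_intervals
      ((hc τ).intervalIntegrable _ _) ((hc τ).intervalIntegrable _ _)]
  rw [e]
  refine HasDerivAt.add ?_ ?_
  · -- moving end
    rw [hasDerivAt_iff_isLittleO, Asymptotics.isLittleO_iff]
    intro ε hε
    have h1 : ContinuousAt (fun z : ℝ × ℝ => H z.1 z.2) (0, t) := hH.continuousAt
    rw [Metric.continuousAt_iff] at h1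
    obtain ⟨δ, hδ, h2⟩ := h1 ε hε
    filter_upwards [Metric.ball_mem_nhds t hδ] with τ hτ
    rw [Metric.mem_ball, Real.dist_eq] at hτ
    simp only [intervalIntegral.integral_same, sub_zero, smul_eq_mul]
    have h3 : (∫ s in t..τ, H (τ - s) s) - (τ - t) * H 0 t =
        ∫ s in t..τ, (H (τ - s) s - H 0 t) := by
      rw [intervalIntegral.integral_sub ((hc τ).intervalIntegrable _ _)
        (intervalIntegrable_const), intervalIntegral.integral_const, smul_eq_mul]
    rw [h3]
    refine intervalIntegral.norm_integral_le_of_norm_le_const fun s hs => ?_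
    have h4 : |s - t| ≤ |τ - t| ∧ |τ - s| ≤ |τ - t| := by
      rcases le_total t τ with h | h
      · rw [uIoc_of_le h] at hs
        rw [abs_of_nonneg (by linarith [hs.1]), abs_of_nonneg (by linarith),
          abs_of_nonneg (by linarith [hs.2])]
        exact ⟨by linarith [hs.2], by linarith [hs.1]⟩
      · rw [uIoc_of_ge h] at hs
        rw [abs_of_nonpos (by linarith [hs.2]), abs_of_nonpos (by linarith),
          abs_of_nonpos (by linarith [hs.1])]
        exact ⟨by linarith [hs.1], by linarith [hs.2]⟩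
    have h5 := @h2 (τ - s, s) (by
      rw [Prod.dist_eq, Real.dist_eq, Real.dist_eq, sub_zero]
      exact max_lt (h4.2.trans_lt hτ) (h4.1.trans_lt hτ))
    rw [Real.dist_eq] at h5
    rw [Real.norm_eq_abs]
    exact h5.le
  · -- fixed end
    have h0 := hasFDerivAt_integral_of_dominated_loc_of_lip'
      (μ := volume.restrict (Ioo 0 t)) (𝕜 := ℝ) (H := ℝ) (E := ℝ) (x₀ := t) (s := univ)
      (F := fun τ s => H (τ - s) s)
      (F' := fun s => ContinuousLinearMap.toSpanSingleton ℝ (K (t - s) s))
      (bound := fun s => C * (t - s) ^ (-(1 / 2) : ℝ)) univ_mem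
      (fun τ _ => (hc τ).aestronglyMeasurable)
      ((hc t).integrableOn_Icc.mono_set Ioo_subset_Icc_self)
      ((ContinuousLinearMap.toSpanSingletonCLE (𝕜 := ℝ) (E := ℝ)).continuous.comp_aestronglyMeasurable hK)
      ((ae_restrict_iff' measurableSet_Ioo).2 (ae_of_all _ fun s hs τ _ => by
        have := hL s hs (τ - s)
        rw [Real.norm_eq_abs, Real.norm_eq_abs]
        have e2 : τ - s - (t - s) = τ - t := by ring
        rw [e2] at this
        exact this))
      (by
        have := (rpow_int t).const_mul C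
        rw [intervalIntegrable_iff_integrableOn_Ioo_of_le ht.le] at this
        exact this)
      ((ae_restrict_iff' measurableSet_Ioo).2 (ae_of_all _ fun s hs => by
        have h1 : HasDerivAt (fun τ : ℝ => τ - s) 1 t := (hasDerivAt_id t).sub_const s
        have h2 := HasDerivAt.comp t (h := fun τ : ℝ => τ - s) (hd s hs) h1
        have h3 := h2.hasFDerivAt
        refine h3.congr_fderiv ?_
        ext
        simp))
    obtain ⟨h1, h2⟩ := h0
    have h3 := h2.hasDerivAt
    have e3 : ∀ f : ℝ → ℝ, ∫ s in Ioo 0 t, f s = ∫ s in (0 : ℝ)..t, f s := by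
      intro f
      rw [intervalIntegral.integral_of_le ht.le, integral_Ioc_eq_integral_Ioo]
    have e4 : (∫ s in Ioo 0 t, ContinuousLinearMap.toSpanSingleton ℝ (K (t - s) s)) 1 =
        ∫ s in (0 : ℝ)..t, K (t - s) s := by
      rw [ContinuousLinearMap.integral_apply h1, ← e3]
      simp
    rw [e4] at h3
    refine h3.congr_of_eventuallyEq (Eventually.of_forall fun τ => ?_)
    exact (e3 _).symm

end LE.X
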