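import Pool.Agent.H6.LE.HeatDefs

set_option autoImplicit false

/-! Gaussian integrals: growth, Stein's identity (helper10). -/

namespace LE.X
open LE Set Filter Topology MeasureTheory ProbabilityTheory

instance gam_prob : IsProbabilityMeasure gam := by unfold gam; infer_instance

theorem gam_int_iff (f : ℝ → ℝ) :
    Integrable f gam ↔ Integrable (fun z => gaussianPDFReal 0 1 z * f z) := by
  unfold gam
  rw [gaussianReal_of_var_ne_zero _ one_ne_zero,
    integrable_withDensity_iff_integrable_smul' (measurable_gaussianPDF _ _)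
      (ae_of_all _ fun _ => gaussianPDF_lt_top)]
  simp

theorem gam_integral (f : ℝ → ℝ) : ∫ z, f z ∂gam = ∫ z, gaussianPDFReal 0 1 z * f z := by
  unfold gam
  rw [integral_gaussianReal_eq_integral_smul one_ne_zero]
  simp

theorem pw_int (n : ℕ) : Integrable (fun z : ℝ => (1 + |z|) ^ n) gam := by
  have h1 : MemLp (fun z : ℝ => 1 + |z|) (n : ENNReal) gam := by
    refine (memLp_const (1 : ℝ)).add ?_
    have := (memLp_id_gaussianReal' (μ := 0) (v := 1) (n : ENNReal) (by simp)).norm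
    exact this
  have h2 := h1.integrable_norm_pow'
  refine h2.congr (ae_of_all _ fun z => ?_)
  show ‖1 + |z|‖ ^ n = _
  rw [Real.norm_of_nonneg (by positivity)]

/-- polynomial growth is integrable -/
theorem gi {f : ℝ → ℝ} (hf : Continuous f) (C : ℝ) (n : ℕ) (h : ∀ z, |f z| ≤ C * (1 + |z|) ^ n) :
    Integrable f gam :=
  ((pw_int n).const_mul C).mono' hf.aestronglyMeasurable (ae_of_all _ fun z => by
    rw [Real.norm_eq_abs]; exact h z)

/-- Stein's identity -/
theorem stein {h h' : ℝ → ℝ} (hd : ∀ z, HasDerivAt h (h' z) z) (i1 : Integrable h gam)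
    (i2 : Integrable (fun z => z * h z) gam) (i3 : Integrable h' gam) :
    ∫ z, h' z ∂gam = ∫ z, z * h z ∂gam := by
  have hp : ∀ z : ℝ, HasDerivAt (fun z => gaussianPDFReal 0 1 z) (gaussianPDFReal 0 1 z * (-z)) z := by
    intro z
    have e : (fun z : ℝ => gaussianPDFReal 0 1 z) =
        fun z => (√(2 * Real.pi))⁻¹ * Real.exp (-z ^ 2 / 2) := by
      ext z
      simp [gaussianPDFReal]
    rw [e]
    have h1 : HasDerivAt (fun z : ℝ => -z ^ 2 / 2) (-z) z := by
      have := ((hasDerivAt_pow 2 z).neg).div_const 2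
      refine this.congr_deriv ?_
      simp
      ring
    refine (h1.exp.const_mul (√(2 * Real.pi))⁻¹).congr_deriv ?_
    have e2 := congrFun e z
    rw [e2]
    ring
  have hprod : ∀ z : ℝ, HasDerivAt (fun z => gaussianPDFReal 0 1 z * h z)
      (gaussianPDFReal 0 1 z * h' z - gaussianPDFReal 0 1 z * (z * h z)) z := by
    intro z
    refine ((hp z).mul (hd z)).congr_deriv ?_
    ring
  have h0 := integral_eq_zero_of_hasDerivAt_of_integrable hprod
    (((gam_int_iff _).1 i3).sub ((gam_int_iff _).1 i2)) ((gam_int_iff _).1 i1)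
  rw [integral_sub ((gam_int_iff _).1 i3) ((gam_int_iff _).1 i2), ← gam_integral,
    ← gam_integral] at h0
  linarith

theorem lin_le (x σ z : ℝ) : |x + σ * z| ≤ (|x| + |σ|) * (1 + |z|) := by
  have h4 : |x + σ * z| ≤ |x| + |σ| * |z| := by
    rw [← abs_mul]; exact abs_add_le _ _
  nlinarith [abs_nonneg x, abs_nonneg σ, abs_nonneg z, mul_nonneg (abs_nonneg x) (abs_nonneg z)]

theorem anti_growth {F f : ℝ → ℝ} (hF : ∀ x, HasDerivAt F (f x) x) {B : ℝ}
    (hB : ∀ x, |f x| ≤ B) (x σ z : ℝ) :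
    |F (x + σ * z)| ≤ (|F 0| + B * (|x| + |σ|)) * (1 + |z|) := by
  have hB0 : 0 ≤ B := (abs_nonneg _).trans (hB 0)
  have h2 : |F (x + σ * z)| ≤ |F 0| + B * |x + σ * z| := by
    have h1 : ‖F (x + σ * z) - F 0‖ ≤ B * ‖(x + σ * z) - 0‖ :=
      Convex.norm_image_sub_le_of_norm_hasDerivWithin_le (f := F) (f' := f) (s := univ)
        (fun x _ => (hF x).hasDerivWithinAt) (fun x _ => by rw [Real.norm_eq_abs]; exact hB x)
        convex_univ (mem_univ _) (mem_univ _)
    rw [sub_zero, Real.norm_eq_abs, Real.norm_eq_abs] at h1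
    have h2 := abs_sub_abs_le_abs_sub (F (x + σ * z)) (F 0)
    linarith
  have h3 := lin_le x σ z
  have h6 : |F 0| ≤ |F 0| * (1 + |z|) := by
    nlinarith [abs_nonneg (F 0), abs_nonneg z, mul_nonneg (abs_nonneg (F 0)) (abs_nonneg z)]
  have h7 := mul_le_mul_of_nonneg_left h3 hB0
  calc |F (x + σ * z)| ≤ |F 0| + B * |x + σ * z| := h2
    _ ≤ |F 0| * (1 + |z|) + B * ((|x| + |σ|) * (1 + |z|)) := add_le_add h6 h7
    _ = _ := by ring

theorem wF_int {F f w : ℝ → ℝ} (hF : ∀ x, HasDerivAt F (f x) x) {B : ℝ}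
    (hB : ∀ x, |f x| ≤ B) (hw : Continuous w) (C : ℝ) (n : ℕ)
    (hwC : ∀ z, |w z| ≤ C * (1 + |z|) ^ n) (σ x : ℝ) :
    Integrable (fun z => w z * F (x + σ * z)) gam := by
  have hFc : Continuous F := continuous_iff_continuousAt.2 fun x => (hF x).continuousAt
  refine gi (hw.mul (hFc.comp (by fun_prop))) (C * (|F 0| + B * (|x| + |σ|))) (n + 1) fun z => ?_
  rw [abs_mul]
  have h1 := hwC z
  have hC : 0 ≤ C * (1 + |z|) ^ n := (abs_nonneg _).trans h1
  have h5 := anti_growth hF hB x σ z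
  calc |w z| * |F (x + σ * z)| ≤ (C * (1 + |z|) ^ n) * ((|F 0| + B * (|x| + |σ|)) * (1 + |z|)) :=
        mul_le_mul h1 h5 (abs_nonneg _) hC
    _ = C * (|F 0| + B * (|x| + |σ|)) * (1 + |z|) ^ (n + 1) := by ring

theorem wf_int {f w : ℝ → ℝ} (hf : Continuous f) {B : ℝ}
    (hB : ∀ x, |f x| ≤ B) (hw : Continuous w) (C : ℝ) (n : ℕ)
    (hwC : ∀ z, |w z| ≤ C * (1 + |z|) ^ n) (σ x : ℝ) :
    Integrable (fun z => w z * f (x + σ * z)) gam := by
  refine gi (hw.mul (hf.comp (by fun_prop))) (C * B) n fun z => ?_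
  rw [abs_mul]
  have h1 := hwC z
  have hC : 0 ≤ C * (1 + |z|) ^ n := (abs_nonneg _).trans h1
  calc |w z| * |f (x + σ * z)| ≤ (C * (1 + |z|) ^ n) * B :=
        mul_le_mul h1 (hB _) (abs_nonneg _) hC
    _ = _ := by ring

/-- differentiation under the Gaussian integral: `∫ w(z) F(x + p y + (σ + q y) z)`, `F' = f`
bounded, `w` of polynomial growth -/
theorem gam_diff {F f w : ℝ → ℝ} (hf : Continuous f) (hF : ∀ x, HasDerivAt F (f x) x) {B : ℝ}
    (hB : ∀ x, |f x| ≤ B) (hw : Continuous w) (C : ℝ) (n : ℕ)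
    (hwC : ∀ z, |w z| ≤ C * (1 + |z|) ^ n) (p q σ x y : ℝ) :
    HasDerivAt (fun y => ∫ z, w z * F ((x + p * y) + (σ + q * y) * z) ∂gam)
      (∫ z, w z * ((p + q * z) * f ((x + p * y) + (σ + q * y) * z)) ∂gam) y := by
  have hFc : Continuous F := continuous_iff_continuousAt.2 fun x => (hF x).continuousAt
  have hmeas : ∀ y : ℝ, AEStronglyMeasurable (fun z => w z * F ((x + p * y) + (σ + q * y) * z))
      gam := fun x => (hw.mul (hFc.comp (by fun_prop))).aestronglyMeasurable
  have h := hasDerivAt_integral_of_dominated_loc_of_deriv_le (μ := gam)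
    (F := fun y z => w z * F ((x + p * y) + (σ + q * y) * z))
    (F' := fun y z => w z * ((p + q * z) * f ((x + p * y) + (σ + q * y) * z))) (x₀ := y)
    (s := univ) (bound := fun z => (C * (|p| + |q|) * B) * (1 + |z|) ^ (n + 1)) univ_mem
    (Eventually.of_forall hmeas) (wF_int hF hB hw C n hwC _ _)
    ((hw.mul ((by fun_prop : Continuous fun z : ℝ => p + q * z).mul
      (hf.comp (by fun_prop)))).aestronglyMeasurable)
    (ae_of_all _ fun z y _ => by
      rw [Real.norm_eq_abs, abs_mul, abs_mul]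
      have h1 := hwC z
      have hC : 0 ≤ C * (1 + |z|) ^ n := (abs_nonneg _).trans h1
      calc |w z| * (|p + q * z| * |f ((x + p * y) + (σ + q * y) * z)|)
          ≤ (C * (1 + |z|) ^ n) * (((|p| + |q|) * (1 + |z|)) * B) :=
            mul_le_mul h1 (mul_le_mul (lin_le p q z) (hB _) (abs_nonneg _) (by positivity))
              (by positivity) hC
        _ = _ := by ring)
    ((pw_int (n + 1)).const_mul _)
    (ae_of_all _ fun z y _ => by
      have h1 : HasDerivAt (fun y : ℝ => (x + p * y) + (σ + q * y) * z) (p + q * z) y := by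
        have ha : HasDerivAt (fun y : ℝ => x + p * y) p y := by
          simpa using ((hasDerivAt_id y).const_mul p).const_add x
        have hb : HasDerivAt (fun y : ℝ => (σ + q * y) * z) (q * z) y := by
          simpa using (((hasDerivAt_id y).const_mul q).const_add σ).mul_const z
        exact ha.add hb
      have h2 := ((hF ((x + p * y) + (σ + q * y) * z)).comp y h1).const_mul (w z)
      refine h2.congr_deriv ?_
      ring)
  exact h.2

theorem gam_dx {F f w : ℝ → ℝ} (hf : Continuous f) (hF : ∀ x, HasDerivAt F (f x) x) {B : ℝ}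
    (hB : ∀ x, |f x| ≤ B) (hw : Continuous w) (C : ℝ) (n : ℕ)
    (hwC : ∀ z, |w z| ≤ C * (1 + |z|) ^ n) (σ x : ℝ) :
    HasDerivAt (fun x => ∫ z, w z * F (x + σ * z) ∂gam) (∫ z, w z * f (x + σ * z) ∂gam) x := by
  simpa using gam_diff hf hF hB hw C n hwC 1 0 σ 0 x

theorem gam_dσ {F f w : ℝ → ℝ} (hf : Continuous f) (hF : ∀ x, HasDerivAt F (f x) x) {B : ℝ}
    (hB : ∀ x, |f x| ≤ B) (hw : Continuous w) (C : ℝ) (n : ℕ)
    (hwC : ∀ z, |w z| ≤ C * (1 + |z|) ^ n) (σ x : ℝ) :
    HasDerivAt (fun σ => ∫ z, w z * F (x + σ * z) ∂gam)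
      (∫ z, w z * (z * f (x + σ * z)) ∂gam) σ := by
  simpa using gam_diff hf hF hB hw C n hwC 0 1 0 x σ

/-- `E f(x + σ Z) = E Z F(x + σ Z) / σ` -/
theorem stein1 {F f : ℝ → ℝ} (hf : Continuous f) (hF : ∀ x, HasDerivAt F (f x) x) {B : ℝ}
    (hB : ∀ x, |f x| ≤ B) (σ x : ℝ) :
    σ * ∫ z, f (x + σ * z) ∂gam = ∫ z, z * F (x + σ * z) ∂gam := by
  have hd : ∀ z, HasDerivAt (fun z => F (x + σ * z)) (σ * f (x + σ * z)) z := by
    intro z
    have h1 : HasDerivAt (fun z : ℝ => x + σ * z) σ z := by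
      simpa using ((hasDerivAt_id z).const_mul σ).const_add x
    refine ((hF _).comp z h1).congr_deriv ?_
    ring
  have iF : Integrable (fun z => F (x + σ * z)) gam := by
    simpa using wF_int hF hB (w := fun _ => 1) continuous_const 1 0 (by simp) σ x
  have h := stein hd iF (wF_int hF hB (w := fun z => z) continuous_id 1 1 (by simp) σ x)
    (by
      have := (wf_int hf hB (w := fun _ => 1) continuous_const 1 0 (by simp) σ x).const_mul σ
      simpa using this)
  rw [← h, integral_const_mul]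

/-- `E Z f(x + σ Z) = E (Z ^ 2 - 1) F(x + σ Z) / σ` -/
theorem stein2 {F f : ℝ → ℝ} (hf : Continuous f) (hF : ∀ x, HasDerivAt F (f x) x) {B : ℝ}
    (hB : ∀ x, |f x| ≤ B) (σ x : ℝ) :
    σ * ∫ z, z * f (x + σ * z) ∂gam = ∫ z, (z ^ 2 - 1) * F (x + σ * z) ∂gam := by
  have hd : ∀ z, HasDerivAt (fun z => z * F (x + σ * z))
      (F (x + σ * z) + σ * (z * f (x + σ * z))) z := by
    intro z
    have h1 : HasDerivAt (fun z : ℝ => x + σ * z) σ z := by
      simpa using ((hasDerivAt_id z).const_mul σ).const_add x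
    refine ((hasDerivAt_id z).mul ((hF _).comp z h1)).congr_deriv ?_
    simp only [id]
    show 1 * F (x + σ * z) + z * (f (x + σ * z) * σ) = _
    ring
  have iF : Integrable (fun z => F (x + σ * z)) gam := by
    simpa using wF_int hF hB (w := fun _ => 1) continuous_const 1 0 (by simp) σ x
  have iz2 : Integrable (fun z => z ^ 2 * F (x + σ * z)) gam :=
    wF_int hF hB (w := fun z => z ^ 2) (by fun_prop) 1 2 (fun z => by
      rw [one_mul, abs_pow]
      exact pow_le_pow_left₀ (abs_nonneg _) (by linarith) 2) σ x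
  have izf := (wf_int hf hB (w := fun z => z) continuous_id 1 1 (by simp) σ x).const_mul σ
  have h := stein hd (wF_int hF hB (w := fun z => z) continuous_id 1 1 (by simp) σ x)
    (by
      refine iz2.congr (ae_of_all _ fun z => ?_)
      simp only
      ring) (iF.add izf)
  rw [integral_add iF izf, integral_const_mul] at h
  have h2 : ∫ z, (z ^ 2 - 1) * F (x + σ * z) ∂gam =
      ∫ z, z * (z * F (x + σ * z)) ∂gam - ∫ z, F (x + σ * z) ∂gam := by
    rw [← integral_sub (by
      refine iz2.congr (ae_of_all _ fun z => ?_)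
      simp only
      ring) iF]
    refine integral_congr_ae (ae_of_all _ fun z => ?_)
    simp only
    ring
  rw [h2]
  linarith

/-- bound of the antiderivative -/
theorem antider {f : ℝ → ℝ} (hf : Continuous f) :
    ∃ F : ℝ → ℝ, ∀ x, HasDerivAt F (f x) x :=
  ⟨fun x => ∫ y in (0 : ℝ)..x, f y, fun x => hf.integral_hasStrictDerivAt 0 x |>.hasDerivAt⟩

theorem per_bdd {f : ℝ → ℝ} (hf : Continuous f) (hp : ∀ x, f (x + 2) = f x) :
    ∃ B, ∀ x, |f x| ≤ B := by
  have hP : Function.Periodic f 2 := hp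
  obtain ⟨B, hB⟩ := (isCompact_Icc (a := (0 : ℝ)) (b := 2)).exists_bound_of_continuousOn
    hf.continuousOn
  refine ⟨B, fun x => ?_⟩
  obtain ⟨y, hy, hxy⟩ := hP.exists_mem_Ico₀ (by norm_num : (0 : ℝ) < 2) x
  rw [hxy, ← Real.norm_eq_abs]
  exact hB y ⟨hy.1, hy.2.le⟩

end LE.X
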