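import Pool.Agent.H6.LE.LipI

/-! Time derivative of the Duhamel operator for a source which is `C¹` in space: corollary of
`I_time_lip` (helper10). -/

namespace LE.X
open LE Set Filter Topology MeasureTheory

theorem I_time {G G1 : ℝ → ℝ → ℝ} (h : PC G) (h1 : PC G1)
    (hd : ∀ s x, HasDerivAt (G s) (G1 s x) x) {t : ℝ} (ht : 0 < t) (x : ℝ) :
    HasDerivAt (fun s => I G s x) (G t x + D G1 t x) t := by
  have hL : LipX G := fun T => by
    obtain ⟨B, hB⟩ := h1.bdd T
    refine ⟨B, fun s hs x y => ?_⟩
    have := Convex.norm_image_sub_le_of_norm_hasDerivWithin_le (f := G s) (f' := G1 s)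
      (s := univ) (C := B) (fun x _ => (hd s x).hasDerivWithinAt)
      (fun x _ => by rw [Real.norm_eq_abs]; exact hB s hs x) convex_univ (mem_univ y) (mem_univ x)
    simpa [Real.norm_eq_abs] using this
  have e : D2 G t x = D G1 t x := by
    have h2 := D_deriv h hL t x
    have e1 : D G t = I G1 t := funext fun y => D_eq h h1 hd t y
    rw [e1] at h2
    exact h2.unique (I_deriv h1 t x)
  rw [← e]
  exact I_time_lip h hL ht x

end LE.X
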